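import Mathlib

set_option autoImplicit false

/-!
# A local Ramsey theorem for selective coideals and analytic sets
-/

namespace Pool.Agent.V11244.LR

open Set

/-- Selective coideals of sets of natural numbers. -/
structure Happy (H : Set (Set ℕ)) : Prop where
  inf : ∀ A ∈ H, A.Infinite
  up : ∀ A ∈ H, ∀ B, A ⊆ B → B ∈ H
  co : ∀ A B : Set ℕ, A ∪ B ∈ H → A ∈ H ∨ B ∈ H
  diag : ∀ D : ℕ → Set ℕ, Antitone D → (∀ n, D n ∈ H) →
    ∃ B ∈ H, B ⊆ D 0 ∧ ∀ n ∈ B, ∀ m ∈ B, n < m → m ∈ D n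

/-- The tail of `A` beyond `n`. -/
def tl (A : Set ℕ) (n : ℕ) : Set ℕ := {m | m ∈ A ∧ n ≤ m}

theorem tl_sub (A : Set ℕ) (n : ℕ) : tl A n ⊆ A := fun _ h => h.1

theorem tl_mono {A B : Set ℕ} (h : A ⊆ B) (n : ℕ) : tl A n ⊆ tl B n := fun _ hx => ⟨h hx.1, hx.2⟩

theorem tl_anti (A : Set ℕ) {n m : ℕ} (h : n ≤ m) : tl A m ⊆ tl A n :=
  fun _ hx => ⟨hx.1, h.trans hx.2⟩

variable {H : Set (Set ℕ)}

theorem Happy.sdiff (hH : Happy H) {A N : Set ℕ} (hA : A ∈ H) (hN : N ∉ H) : A \ N ∈ H := by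
  have : A ∩ N ∪ A \ N ∈ H := by rwa [Set.inter_union_sdiff]
  rcases hH.co _ _ this with h | h
  · exact absurd (hH.up _ h N Set.inter_subset_right) hN
  · exact h

theorem Happy.tail_mem (hH : Happy H) {A : Set ℕ} (hA : A ∈ H) (n : ℕ) : tl A n ∈ H := by
  have : A \ Set.Iio n ∈ H := hH.sdiff hA fun h => hH.inf _ h (Set.finite_Iio n)
  refine hH.up _ this _ ?_
  rintro x ⟨h1, h2⟩
  exact ⟨h1, not_lt.1 h2⟩

/-- Fusion. -/
theorem Happy.fusion (hH : Happy H) {ι : Type} (R : ι → Set ℕ → Prop)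
    (hdown : ∀ i A B, B ⊆ A → R i A → R i B) (F : ℕ → Finset ι) {A : Set ℕ} (hA : A ∈ H)
    (hdense : ∀ i, ∀ A' ∈ H, A' ⊆ A → ∃ B ∈ H, B ⊆ A' ∧ R i B) :
    ∃ B ∈ H, B ⊆ A ∧ ∀ n ∈ B, ∀ i ∈ F n, R i (tl B (n + 1)) := by
  classical
  have hfin : ∀ S : Finset ι, ∀ A' ∈ H, A' ⊆ A → ∃ B ∈ H, B ⊆ A' ∧ ∀ i ∈ S, R i B := by
    intro S
    induction S using Finset.induction_on with
    | empty => intro A' hA' _; exact ⟨A', hA', le_rfl, by simp⟩
    | insert i S _ ih =>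
      intro A' hA' hs
      obtain ⟨B, hB, hBA, hR⟩ := ih A' hA' hs
      obtain ⟨B', hB', hBB, hR'⟩ := hdense i B hB (hBA.trans hs)
      refine ⟨B', hB', hBB.trans hBA, fun j hj => ?_⟩
      rcases Finset.mem_insert.1 hj with rfl | hj
      · exact hR'
      · exact hdown _ _ _ hBB (hR j hj)
  choose! f hf1 hf2 hf3 using hfin
  let D : ℕ → {X : Set ℕ // X ∈ H ∧ X ⊆ A} := fun n => Nat.rec
    ⟨f (F 0) A, hf1 _ _ hA le_rfl, hf2 _ _ hA le_rfl⟩
    (fun n X => ⟨f (F (n + 1)) X.1, hf1 _ _ X.2.1 X.2.2, (hf2 _ _ X.2.1 X.2.2).trans X.2.2⟩) n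
  have hD0 : (D 0).1 = f (F 0) A := rfl
  have hDs : ∀ n, (D (n + 1)).1 = f (F (n + 1)) (D n).1 := fun n => rfl
  have hanti : Antitone fun n => (D n).1 := by
    refine antitone_nat_of_succ_le fun n => ?_
    rw [hDs]
    exact hf2 _ _ (D n).2.1 (D n).2.2
  have hDR : ∀ n, ∀ i ∈ F n, R i (D n).1 := by
    intro n
    cases n with
    | zero => intro i hi; rw [hD0]; exact hf3 _ _ hA le_rfl i hi
    | succ n => intro i hi; rw [hDs]; exact hf3 _ _ (D n).2.1 (D n).2.2 i hi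
  obtain ⟨B, hB, hB0, hBd⟩ := hH.diag (fun n => (D n).1) hanti fun n => (D n).2.1
  refine ⟨B, hB, hB0.trans (D 0).2.2, fun n hn i hi => hdown _ _ _ ?_ (hDR n i hi)⟩
  intro m hm
  exact hBd n hn m hm.1 hm.2

/-- The basic sets. -/
def Nb (s : Finset ℕ) (A : Set ℕ) : Set (Set ℕ) :=
  {C | C.Infinite ∧ (∀ n ∈ s, n ∈ C) ∧ ∀ n ∈ C, n ∈ s ∨ (n ∈ A ∧ ∀ m ∈ s, m < n)}

theorem Nb_mono {s : Finset ℕ} {A B : Set ℕ} (h : B ⊆ A) : Nb s B ⊆ Nb s A :=
  fun _ hC => ⟨hC.1, hC.2.1, fun n hn => (hC.2.2 n hn).imp id fun h' => ⟨h h'.1, h'.2⟩⟩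

open Classical in
/-- Initial segments. -/
noncomputable def seg (C : Set ℕ) (n : ℕ) : Finset ℕ := (Finset.range n).filter (· ∈ C)

theorem mem_seg {C : Set ℕ} {n x : ℕ} : x ∈ seg C n ↔ x < n ∧ x ∈ C := by
  simp [seg]

theorem seg_zero (C : Set ℕ) : seg C 0 = ∅ := by ext x; simp [mem_seg]

theorem seg_succ_of_mem {C : Set ℕ} {n : ℕ} (h : n ∈ C) : seg C (n + 1) = insert n (seg C n) := by
  ext x
  simp only [mem_seg, Finset.mem_insert]
  constructor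
  · rintro ⟨h1, h2⟩
    rcases Nat.lt_succ_iff_lt_or_eq.1 h1 with h | h
    · exact Or.inr ⟨h, h2⟩
    · exact Or.inl h
  · rintro (rfl | ⟨h1, h2⟩)
    · exact ⟨by omega, h⟩
    · exact ⟨by omega, h2⟩

theorem seg_succ_of_not_mem {C : Set ℕ} {n : ℕ} (h : n ∉ C) : seg C (n + 1) = seg C n := by
  ext x
  simp only [mem_seg]
  constructor
  · rintro ⟨h1, h2⟩
    rcases Nat.lt_succ_iff_lt_or_eq.1 h1 with h' | h'
    · exact ⟨h', h2⟩
    · exact absurd (h' ▸ h2) h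
  · rintro ⟨h1, h2⟩
    exact ⟨by omega, h2⟩

theorem seg_sub_range (C : Set ℕ) (n : ℕ) : seg C n ∈ (Finset.range n).powerset := by
  rw [Finset.mem_powerset]
  intro x hx
  exact Finset.mem_range.2 (mem_seg.1 hx).1

theorem seg_congr {C C' : Set ℕ} {n : ℕ} (h : ∀ x < n, (x ∈ C ↔ x ∈ C')) : seg C n = seg C' n := by
  ext x
  simp only [mem_seg]
  constructor
  · rintro ⟨h1, h2⟩; exact ⟨h1, (h x h1).1 h2⟩
  · rintro ⟨h1, h2⟩; exact ⟨h1, (h x h1).2 h2⟩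

/-- the first element after `s` -/
theorem exists_first {s : Finset ℕ} {A C : Set ℕ} (hC : C ∈ Nb s A) :
    ∃ n ∈ C, n ∈ A ∧ (∀ m ∈ s, m < n) ∧ ∀ x ∈ C, x ∈ s ∨ x = n ∨ (n < x ∧ x ∈ A) := by
  classical
  have h1 : (C \ (s : Set ℕ)).Nonempty := (hC.1.sdiff s.finite_toSet).nonempty
  let n := sInf (C \ (s : Set ℕ))
  have hn : n ∈ C \ (s : Set ℕ) := Nat.sInf_mem h1
  have hn2 := (hC.2.2 n hn.1).resolve_left (fun h => hn.2 h)
  refine ⟨n, hn.1, hn2.1, hn2.2, fun x hx => ?_⟩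
  by_cases hxs : x ∈ s
  · exact Or.inl hxs
  · have hle : n ≤ x := Nat.sInf_le ⟨hx, hxs⟩
    rcases hle.eq_or_lt with h | h
    · exact Or.inr (Or.inl h.symm)
    · exact Or.inr (Or.inr ⟨h, ((hC.2.2 x hx).resolve_left hxs).1⟩)

theorem mem_Nb_insert {s : Finset ℕ} {A B C : Set ℕ} (hC : C ∈ Nb s A) {n : ℕ} (hn : n ∈ C)
    (hns : ∀ m ∈ s, m < n) (h : ∀ x ∈ C, x ∈ s ∨ x = n ∨ (n < x ∧ x ∈ B)) :
    C ∈ Nb (insert n s) B := by
  refine ⟨hC.1, ?_, ?_⟩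
  · intro m hm
    rcases Finset.mem_insert.1 hm with rfl | hm
    · exact hn
    · exact hC.2.1 m hm
  · intro x hx
    rcases h x hx with h1 | h1 | h1
    · exact Or.inl (Finset.mem_insert_of_mem h1)
    · exact Or.inl (h1 ▸ Finset.mem_insert_self _ _)
    · refine Or.inr ⟨h1.2, fun m hm => ?_⟩
      rcases Finset.mem_insert.1 hm with rfl | hm
      · exact h1.1
      · exact (hns m hm).trans h1.1

/-- For a coideal with decisions: all finite subsets of a member keep a property which passes to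
almost all one-point extensions. -/
theorem Happy.propagate (hH : Happy H) (G : Finset ℕ → Prop) {A : Set ℕ} (hA : A ∈ H)
    (h0 : G ∅)
    (hstep : ∀ s : Finset ℕ, G s → {n | n ∈ A ∧ (∀ m ∈ s, m < n) ∧ ¬ G (insert n s)} ∉ H) :
    ∃ B ∈ H, B ⊆ A ∧ ∀ C ⊆ B, ∀ n, G (seg C n) := by
  classical
  let N : Finset ℕ → Set ℕ := fun s => {n | n ∈ A ∧ (∀ m ∈ s, m < n) ∧ ¬ G (insert n s)}
  let R : Finset ℕ → Set ℕ → Prop := fun s B => G s → ∀ x ∈ B, x ∉ N s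
  have hdown : ∀ i A B, B ⊆ A → R i A → R i B := fun i A B h hR hG x hx => hR hG x (h hx)
  have hdense : ∀ i, ∀ A' ∈ H, A' ⊆ A → ∃ B ∈ H, B ⊆ A' ∧ R i B := by
    intro s A' hA' _
    by_cases hG : G s
    · exact ⟨A' \ N s, hH.sdiff hA' (hstep s hG), Set.sdiff_subset, fun _ x hx => hx.2⟩
    · exact ⟨A', hA', le_rfl, fun h => absurd h hG⟩
  obtain ⟨A₁, hA₁, hA₁A, hA₁R⟩ := hdense ∅ A hA le_rfl
  obtain ⟨B, hB, hBA, hBR⟩ := hH.fusion R hdown (fun n => (Finset.range (n + 1)).powerset) hA₁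
    fun i A' h1 h2 => hdense i A' h1 (h2.trans hA₁A)
  refine ⟨B, hB, hBA.trans hA₁A, fun C hC n => ?_⟩
  have key : ∀ n, G (seg C n) ∧ ∀ x ∈ B, n ≤ x → x ∉ N (seg C n) := by
    intro n
    induction n with
    | zero =>
      rw [seg_zero]
      exact ⟨h0, fun x hx _ => hA₁R h0 x (hBA hx)⟩
    | succ n ih =>
      by_cases hn : n ∈ C
      · rw [seg_succ_of_mem hn]
        have h1 : n ∉ N (seg C n) := ih.2 n (hC hn) le_rfl
        have h2 : G (insert n (seg C n)) := by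
          by_contra hcon
          exact h1 ⟨hA₁A (hBA (hC hn)), fun m hm => (mem_seg.1 hm).1, hcon⟩
        refine ⟨h2, fun x hx hnx => ?_⟩
        refine hBR n (hC hn) _ ?_ h2 x ⟨hx, hnx⟩
        rw [← seg_succ_of_mem hn]
        exact seg_sub_range _ _
      · rw [seg_succ_of_not_mem hn]
        exact ⟨ih.1, fun x hx hnx => ih.2 x hx (by omega)⟩
  exact (key n).1

/-- The Galvin lemma for selective coideals. -/
theorem Happy.galvin (hH : Happy H) (ℱ : Set (Finset ℕ)) {A : Set ℕ} (hA : A ∈ H) :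
    ∃ B ∈ H, B ⊆ A ∧ ((∀ C ⊆ B, C.Infinite → ∃ j ∈ C, seg C (j + 1) ∈ ℱ) ∨
      (∀ u : Finset ℕ, u.Nonempty → (∀ x ∈ u, x ∈ B) → u ∉ ℱ)) := by
  classical
  let Acc : Finset ℕ → Set ℕ → Prop := fun s B => ∀ C ∈ Nb s B, ∃ j ∈ C, seg C (j + 1) ∈ ℱ
  let Rjs : Finset ℕ → Set ℕ → Prop := fun s A => ∀ B ∈ H, B ⊆ A → ¬ Acc s B
  have hAccd : ∀ s A B, B ⊆ A → Acc s A → Acc s B := fun s A B h h' C hC => h' C (Nb_mono h hC)
  have hRjsd : ∀ s A B, B ⊆ A → Rjs s A → Rjs s B := fun s A B h h' X hX hXB =>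
    h' X hX (hXB.trans h)
  have hRt : ∀ s A n, Rjs s (tl A n) → Rjs s A := fun s A n h B hB hBA hacc =>
    h _ (hH.tail_mem hB n) (tl_mono hBA n) (hAccd _ _ _ (tl_sub _ _) hacc)
  let R : Finset ℕ → Set ℕ → Prop := fun s B => Acc s B ∨ Rjs s B
  have hdown : ∀ i A B, B ⊆ A → R i A → R i B := fun i A B h hR =>
    hR.imp (hAccd _ _ _ h) (hRjsd _ _ _ h)
  have hdense : ∀ i, ∀ A' ∈ H, A' ⊆ A → ∃ B ∈ H, B ⊆ A' ∧ R i B := by
    intro s A' hA' _
    by_cases h : Rjs s A'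
    · exact ⟨A', hA', le_rfl, Or.inr h⟩
    · have h' : ∃ B ∈ H, B ⊆ A' ∧ Acc s B := by
        by_contra hcon
        exact h fun B h1 h2 h3 => hcon ⟨B, h1, h2, h3⟩
      obtain ⟨B, h1, h2, h3⟩ := h'
      exact ⟨B, h1, h2, Or.inl h3⟩
  obtain ⟨A₁, hA₁, hA₁A, hA₁R⟩ := hdense ∅ A hA le_rfl
  obtain ⟨A₀, hA₀, hA₀A, hA₀R⟩ := hH.fusion R hdown (fun n => (Finset.range (n + 1)).powerset) hA₁
    fun i A' h1 h2 => hdense i A' h1 (h2.trans hA₁A)
  rcases hA₁R with hacc | hrej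
  · refine ⟨A₁, hA₁, hA₁A, Or.inl fun C hC hCi => ?_⟩
    exact hacc C ⟨hCi, by simp, fun n hn => Or.inr ⟨hC hn, by simp⟩⟩
  · have hrej0 : Rjs ∅ A₀ := hRjsd _ _ _ hA₀A hrej
    obtain ⟨B, hB, hBA, hBG⟩ := hH.propagate (fun s => Rjs s A₀) hA₀ hrej0 (by
      intro s hs hN
      refine hs _ hN (fun x hx => hx.1) ?_
      intro C hC
      obtain ⟨n, hnC, hnN, hns, hx⟩ := exists_first hC
      have hdec := hA₀R n hnN.1 (insert n s) (by
        rw [Finset.mem_powerset]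
        intro y hy
        rw [Finset.mem_range]
        rcases Finset.mem_insert.1 hy with rfl | hy
        · omega
        · have := hns y hy; omega)
      have hacc : Acc (insert n s) (tl A₀ (n + 1)) := by
        rcases hdec with h | h
        · exact h
        · exact absurd (hRt _ _ _ h) hnN.2.2
      exact hacc C (mem_Nb_insert hC hnC hns fun x hxC => by
        rcases hx x hxC with h | h | h
        · exact Or.inl h
        · exact Or.inr (Or.inl h)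
        · exact Or.inr (Or.inr ⟨h.1, h.2.1, h.1⟩)))
    refine ⟨B, hB, (hBA.trans hA₀A).trans hA₁A, Or.inr fun u hu huB huF => ?_⟩
    have h1 := hBG (u : Set ℕ) (fun x hx => huB x hx) (u.max' hu + 1)
    have h2 : seg (u : Set ℕ) (u.max' hu + 1) = u := by
      ext x
      simp only [mem_seg, Finset.mem_coe]
      constructor
      · exact fun h => h.2
      · intro h
        exact ⟨by have := u.le_max' x h; omega, h⟩
    rw [h2] at h1
    refine h1 A₀ hA₀ le_rfl ?_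
    intro C hC
    refine ⟨u.max' hu, hC.2.1 _ (u.max'_mem hu), ?_⟩
    have h3 : seg C (u.max' hu + 1) = u := by
      ext x
      simp only [mem_seg]
      constructor
      · rintro ⟨h4, h5⟩
        rcases hC.2.2 x h5 with h6 | h6
        · exact h6
        · have := h6.2 _ (u.max'_mem hu); omega
      · intro h
        exact ⟨by have := u.le_max' x h; omega, hC.2.1 x h⟩
    rw [h3]
    exact huF

end Pool.Agent.V11244.LR
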