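import Pool.Agent.V11244.ZMad.LR

set_option autoImplicit false

/-!
# A local Ramsey theorem for selective coideals and analytic sets, II
-/

namespace Pool.Agent.V11244.LR

open Set

/-- `g` extends the finite sequence `t`. -/
def Ext (t : List ℕ) (g : ℕ → ℕ) : Prop := ∀ i, i < t.length → g i = t.getD i 0

theorem Ext_append {t : List ℕ} {g : ℕ → ℕ} (h : Ext t g) : Ext (t ++ [g t.length]) g := by
  intro i hi
  rw [List.length_append, List.length_singleton] at hi
  rcases Nat.lt_succ_iff_lt_or_eq.1 hi with h1 | h1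
  · rw [List.getD_append _ _ _ _ h1]
    exact h i h1
  · subst h1
    rw [List.getD_append_right _ _ _ _ le_rfl]
    simp

open Classical in
/-- One step of the attempt at a witness. -/
noncomputable def stp (G : Finset ℕ → List ℕ → Prop) (b : Prop) (s : Finset ℕ) (t : List ℕ) :
    List ℕ := if h : b ∧ ∃ k, G s (t ++ [k]) then t ++ [h.2.choose] else t

/-- The attempt at a witness along `C`. -/
noncomputable def tau (G : Finset ℕ → List ℕ → Prop) (C : Set ℕ) : ℕ → List ℕ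
  | 0 => []
  | n + 1 => stp G (n ∈ C) (seg C (n + 1)) (tau G C n)

variable {G : Finset ℕ → List ℕ → Prop}

theorem tau_cases (C : Set ℕ) (n : ℕ) : tau G C (n + 1) = tau G C n ∨
    ((∃ k, tau G C (n + 1) = tau G C n ++ [k]) ∧ G (seg C (n + 1)) (tau G C (n + 1))) := by
  classical
  rw [tau, stp]
  split_ifs with h
  · exact Or.inr ⟨⟨_, rfl⟩, h.2.choose_spec⟩
  · exact Or.inl rfl

theorem tau_ne {C : Set ℕ} {n : ℕ} (hn : n ∈ C)
    (h : ∃ k, G (seg C (n + 1)) (tau G C n ++ [k])) : tau G C (n + 1) ≠ tau G C n := by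
  classical
  rw [tau, stp, dif_pos ⟨hn, h⟩]
  intro hcon
  have := congrArg List.length hcon
  simp at this

theorem tau_of_not_mem {C : Set ℕ} {n : ℕ} (hn : n ∉ C) : tau G C (n + 1) = tau G C n := by
  classical
  rw [tau, stp, dif_neg fun h => hn h.1]

theorem tau_prefix (C : Set ℕ) {a b : ℕ} (h : a ≤ b) : tau G C a <+: tau G C b := by
  induction b, h using Nat.le_induction with
  | base => exact List.prefix_rfl
  | succ n _ ih =>
    rcases tau_cases (G := G) C n with h | ⟨⟨k, h⟩, _⟩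
    · rw [h]; exact ih
    · rw [h]; exact ih.trans (List.prefix_append _ _)

theorem tau_congr {C C' : Set ℕ} {n : ℕ} (h : ∀ x < n, (x ∈ C ↔ x ∈ C')) :
    tau G C n = tau G C' n := by
  induction n with
  | zero => rfl
  | succ n ih =>
    rw [tau, tau, ih fun x hx => h x (by omega), seg_congr h, propext (h n (by omega))]

theorem tau_const {C : Set ℕ} {a b : ℕ} (hab : a ≤ b) (h : ∀ x, a ≤ x → x < b → x ∉ C) :
    tau G C b = tau G C a := by
  induction b, hab using Nat.le_induction with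
  | base => rfl
  | succ n hn ih =>
    rw [tau_of_not_mem (h n hn (by omega)), ih fun x h1 h2 => h x h1 (by omega)]

/-- The finite sequence attached to a finite set. -/
noncomputable def Tau (G : Finset ℕ → List ℕ → Prop) (s : Finset ℕ) : List ℕ :=
  tau G (s : Set ℕ) (s.sup id + 1)

theorem Tau_empty : Tau G ∅ = [] := by
  have : tau G ((∅ : Finset ℕ) : Set ℕ) 1 = tau G ((∅ : Finset ℕ) : Set ℕ) 0 :=
    tau_of_not_mem (by simp)
  exact this

theorem tau_eq_Tau (C : Set ℕ) (n : ℕ) : tau G C n = Tau G (seg C n) := by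
  have h1 : tau G C n = tau G (seg C n : Set ℕ) n := by
    refine tau_congr fun x hx => ?_
    rw [Finset.mem_coe, mem_seg]
    exact ⟨fun h => ⟨hx, h⟩, fun h => h.2⟩
  rw [h1, Tau]
  rcases le_total n ((seg C n).sup id + 1) with h | h
  · refine (tau_const h fun x hx _ hxs => ?_).symm
    have := (mem_seg.1 (Finset.mem_coe.1 hxs)).1
    omega
  · refine tau_const h fun x hx _ hxs => ?_
    have : x ≤ (seg C n).sup id := Finset.le_sup (f := id) (Finset.mem_coe.1 hxs)
    omega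

theorem seg_coe {s : Finset ℕ} {n : ℕ} (h : ∀ x ∈ s, x < n) : seg (s : Set ℕ) n = s := by
  ext x
  rw [mem_seg, Finset.mem_coe]
  exact ⟨fun h => h.2, fun hx => ⟨h x hx, hx⟩⟩

theorem Tau_insert {s : Finset ℕ} {n : ℕ} (h : ∀ m ∈ s, m < n) :
    Tau G (insert n s) = Tau G s ∨
      ((∃ k, Tau G (insert n s) = Tau G s ++ [k]) ∧ G (insert n s) (Tau G (insert n s))) := by
  have h1 : seg ((insert n s : Finset ℕ) : Set ℕ) (n + 1) = insert n s := by
    refine seg_coe fun x hx => ?_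
    rcases Finset.mem_insert.1 hx with rfl | hx
    · omega
    · have := h x hx; omega
  have h2 : seg ((insert n s : Finset ℕ) : Set ℕ) n = s := by
    ext x
    rw [mem_seg, Finset.mem_coe, Finset.mem_insert]
    constructor
    · rintro ⟨h3, rfl | h4⟩
      · omega
      · exact h4
    · exact fun hx => ⟨h x hx, Or.inr hx⟩
  have h3 := tau_cases (G := G) ((insert n s : Finset ℕ) : Set ℕ) n
  rwa [tau_eq_Tau, tau_eq_Tau, h1, h2] at h3

theorem getD_prefix {l₁ l₂ : List ℕ} (h : l₁ <+: l₂) {i : ℕ} (hi : i < l₁.length) :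
    l₂.getD i 0 = l₁.getD i 0 := by
  obtain ⟨l, rfl⟩ := h
  exact List.getD_append _ _ _ _ hi

variable {H : Set (Set ℕ)} {P : Set ℕ → (ℕ → ℕ) → Prop}

/-- The projection of the part of `P` beyond `t`. -/
def Ct (P : Set ℕ → (ℕ → ℕ) → Prop) (t : List ℕ) : Set (Set ℕ) := {C | ∃ g, Ext t g ∧ P C g}

/-- `[s, A]` misses the projection. -/
def Rej (P : Set ℕ → (ℕ → ℕ) → Prop) (s : Finset ℕ) (A : Set ℕ) (t : List ℕ) : Prop :=
  ∀ C ∈ Nb s A, C ∉ Ct P t

/-- No large subset of `A` is such that `[s, A]` misses the projection. -/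
def Good (H : Set (Set ℕ)) (P : Set ℕ → (ℕ → ℕ) → Prop) (s : Finset ℕ) (A : Set ℕ)
    (t : List ℕ) : Prop := ∀ B ∈ H, B ⊆ A → ∃ C ∈ Nb s B, C ∈ Ct P t

theorem Rej.mono {s : Finset ℕ} {A B : Set ℕ} {t : List ℕ} (h : Rej P s A t) (hB : B ⊆ A) :
    Rej P s B t := fun C hC => h C (Nb_mono hB hC)

theorem Good.mono {s : Finset ℕ} {A B : Set ℕ} {t : List ℕ} (h : Good H P s A t) (hB : B ⊆ A) :
    Good H P s B t := fun X hX hXB => h X hX (hXB.trans hB)

theorem Good.of_tl (hH : Happy H) {s : Finset ℕ} {A : Set ℕ} {n : ℕ} {t : List ℕ}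
    (h : Good H P s (tl A n) t) : Good H P s A t := by
  intro B hB hBA
  obtain ⟨C, hC, hCt⟩ := h _ (hH.tail_mem hB n) (tl_mono hBA n)
  exact ⟨C, Nb_mono (tl_sub _ _) hC, hCt⟩

/-- Deciding everything. -/
theorem exists_dec (hH : Happy H) {A : Set ℕ} (hA : A ∈ H) :
    ∃ B ∈ H, B ⊆ A ∧ ∀ s t, Good H P s B t ∨ ∃ n, Rej P s (tl B n) t := by
  classical
  obtain ⟨B, hB, hBA, hBR⟩ := hH.fusion
    (fun (i : Finset ℕ × List ℕ) X => Rej P i.1 X i.2 ∨ Good H P i.1 X i.2)
    (fun i X Y h hR => hR.imp (fun h' => h'.mono h) fun h' => h'.mono h)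
    (fun n => (Finset.range (n + 1)).powerset ×ˢ (Finset.range (n + 1)).image
      fun k => ((Encodable.decode (α := List ℕ) k).getD [])) hA (by
      intro i A' hA' _
      by_cases h : Good H P i.1 A' i.2
      · exact ⟨A', hA', le_rfl, Or.inr h⟩
      · simp only [Good, not_forall] at h
        obtain ⟨B, hB, hBA, h⟩ := h
        exact ⟨B, hB, hBA, Or.inl fun C hC hCt => h ⟨C, hC, hCt⟩⟩)
  refine ⟨B, hB, hBA, fun s t => ?_⟩
  obtain ⟨n, hn, hnM⟩ := (hH.inf B hB).exists_gt (max (s.sup id) (Encodable.encode t))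
  have h1 := hBR n hn (s, t) (by
    rw [Finset.mem_product, Finset.mem_powerset, Finset.mem_image]
    refine ⟨fun x hx => ?_, Encodable.encode t, ?_, by simp⟩
    · rw [Finset.mem_range]
      have : x ≤ s.sup id := Finset.le_sup (f := id) hx
      omega
    · rw [Finset.mem_range]; omega)
  rcases h1 with h1 | h1
  · exact Or.inr ⟨_, h1⟩
  · exact Or.inl (h1.of_tl hH)

theorem step_a (hH : Happy H) {A₀ : Set ℕ} 
    (hdec : ∀ s t, Good H P s A₀ t ∨ ∃ n, Rej P s (tl A₀ n) t) {s : Finset ℕ} {t : List ℕ}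
    (hG : Good H P s A₀ t) :
    {n | n ∈ A₀ ∧ (∀ m ∈ s, m < n) ∧ ¬ Good H P (insert n s) A₀ t} ∉ H := by
  classical
  intro hN
  have hm : ∀ n, ∃ m, n ∈ {n | n ∈ A₀ ∧ (∀ m ∈ s, m < n) ∧ ¬ Good H P (insert n s) A₀ t} →
      Rej P (insert n s) (tl A₀ m) t := by
    intro n
    rcases hdec (insert n s) t with h | ⟨m, h⟩
    · exact ⟨0, fun hn => absurd h hn.2.2⟩
    · exact ⟨m, fun _ => h⟩
  choose m hm using hm
  set N := {n | n ∈ A₀ ∧ (∀ m ∈ s, m < n) ∧ ¬ Good H P (insert n s) A₀ t} with hNdef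
  obtain ⟨B, hB, hB0, hBd⟩ := hH.diag (fun n => tl N ((Finset.range (n + 1)).sup m)) (by
    intro a b hab
    exact tl_anti _ (Finset.sup_mono (Finset.range_mono (by omega)))) fun n => hH.tail_mem hN _
  have hBN : B ⊆ N := hB0.trans (tl_sub _ _)
  obtain ⟨C, hC, hCt⟩ := hG B hB (hBN.trans fun x hx => hx.1)
  obtain ⟨n, hnC, hnB, hns, hx⟩ := exists_first hC
  refine hm n (hBN hnB) C (mem_Nb_insert hC hnC hns fun x hxC => ?_) hCt
  rcases hx x hxC with h | h | h
  · exact Or.inl h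
  · exact Or.inr (Or.inl h)
  · refine Or.inr (Or.inr ⟨h.1, (hBN h.2).1, ?_⟩)
    have h1 := hBd n hnB x h.2 h.1
    exact (Finset.le_sup (f := m) (Finset.mem_range.2 (by omega))).trans h1.2

theorem step_b (hH : Happy H) {A₀ : Set ℕ} 
    (hdec : ∀ s t, Good H P s A₀ t ∨ ∃ n, Rej P s (tl A₀ n) t) {s : Finset ℕ} {t : List ℕ}
    (hG : Good H P s A₀ t) {B : Set ℕ} (hB : B ∈ H) (hBA : B ⊆ A₀) (hsB : ∀ x ∈ B, ∀ y ∈ s, y < x)
    (hno : ∀ u : Finset ℕ, u.Nonempty → (∀ x ∈ u, x ∈ B) → ∀ k, ¬ Good H P (s ∪ u) A₀ (t ++ [k])) :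
    False := by
  classical
  have hm : ∀ (u : Finset ℕ) (k : ℕ), ∃ m, (u.Nonempty → (∀ x ∈ u, x ∈ B) →
      Rej P (s ∪ u) (tl A₀ m) (t ++ [k])) := by
    intro u k
    rcases hdec (s ∪ u) (t ++ [k]) with h | ⟨m, h⟩
    · exact ⟨0, fun h1 h2 => absurd h (hno u h1 h2 k)⟩
    · exact ⟨m, fun _ _ => h⟩
  choose m hm using hm
  let M : ℕ → ℕ := fun n => ((Finset.range (n + 1)).powerset ×ˢ Finset.range (n + 1)).sup
    fun p => m p.1 p.2
  obtain ⟨B', hB', hB0, hBd⟩ := hH.diag (fun n => tl B (M n)) (by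
    intro a b hab
    refine tl_anti _ (Finset.sup_mono (Finset.product_subset_product
      (Finset.powerset_mono.2 (Finset.range_mono (by omega))) (Finset.range_mono (by omega)))))
    fun n => hH.tail_mem hB _
  have hBB : B' ⊆ B := hB0.trans (tl_sub _ _)
  obtain ⟨C, hC, g, hg, hPg⟩ := hG B' hB' (hBB.trans hBA)
  have h1 : (C \ (s : Set ℕ)).Infinite := hC.1.sdiff s.finite_toSet
  obtain ⟨n, hn, hnk⟩ := h1.exists_gt (g t.length)
  have hnB : n ∈ B' := ((hC.2.2 n hn.1).resolve_left fun h => hn.2 h).1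
  let u := (seg C (n + 1)) \ s
  have hnu : n ∈ u := Finset.mem_sdiff.2 ⟨mem_seg.2 ⟨by omega, hn.1⟩, fun h => hn.2 h⟩
  have huB' : ∀ x ∈ u, x ∈ B' := by
    intro x hx
    have h2 := Finset.mem_sdiff.1 hx
    exact ((hC.2.2 x (mem_seg.1 h2.1).2).resolve_left h2.2).1
  have hrej := hm u (g t.length) ⟨n, hnu⟩ fun x hx => hBB (huB' x hx)
  refine hrej C ⟨hC.1, ?_, ?_⟩ ⟨g, Ext_append hg, hPg⟩
  · intro x hx
    rcases Finset.mem_union.1 hx with hx | hx
    · exact hC.2.1 x hx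
    · exact (mem_seg.1 (Finset.mem_sdiff.1 hx).1).2
  · intro x hx
    by_cases hxs : x ∈ s
    · exact Or.inl (Finset.mem_union_left _ hxs)
    · have hxB : x ∈ B' := ((hC.2.2 x hx).resolve_left hxs).1
      rcases Nat.lt_or_ge n x with h2 | h2
      · refine Or.inr ⟨⟨hBA (hBB hxB), ?_⟩, ?_⟩
        · have h3 := (hBd n hnB x hxB h2).2
          refine le_trans ?_ h3
          refine Finset.le_sup (f := fun p : Finset ℕ × ℕ => m p.1 p.2) (b := (u, g t.length)) ?_
          rw [Finset.mem_product]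
          refine ⟨?_, Finset.mem_range.2 (by show g t.length < n + 1; omega)⟩
          rw [Finset.mem_powerset]
          intro y hy
          exact Finset.mem_range.2 (mem_seg.1 (Finset.mem_sdiff.1 hy).1).1
        · intro y hy
          rcases Finset.mem_union.1 hy with hy | hy
          · exact hsB x (hBB hxB) y hy
          · have := (mem_seg.1 (Finset.mem_sdiff.1 hy).1).1
            omega
      · exact Or.inl (Finset.mem_union_right _ (Finset.mem_sdiff.2 ⟨mem_seg.2 ⟨by omega, hx⟩, hxs⟩))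

/-- **The local Ramsey theorem**: a projection of a closed relation which is dense below a selective
coideal contains a member of the coideal. -/
theorem Happy.main (hH : Happy H) (hcl : ∀ C g, (∀ k, ∃ C' g', P C' g' ∧
      (∀ i < k, (i ∈ C' ↔ i ∈ C)) ∧ ∀ i < k, g' i = g i) → P C g)
    (hd : ∀ A ∈ H, ∃ C ⊆ A, C.Infinite ∧ ∃ g, P C g) (hne : ∃ A, A ∈ H) :
    ∃ A ∈ H, ∃ g, P A g := by
  classical
  obtain ⟨A, hA⟩ := hne
  obtain ⟨A₀, hA₀, -, hdec⟩ := exists_dec (P := P) hH hA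
  let G : Finset ℕ → List ℕ → Prop := fun s t => Good H P s A₀ t
  obtain ⟨A₁, hA₁, hA₁A, hA₁G⟩ := hH.propagate (fun s => G s (Tau G s)) hA₀ (by
    rw [Tau_empty]
    intro B hB _
    obtain ⟨C, hCB, hCi, g, hg⟩ := hd B hB
    exact ⟨C, ⟨hCi, by simp, fun n hn => Or.inr ⟨hCB hn, by simp⟩⟩, g, fun i hi => by simp at hi,
      hg⟩) (by
    intro s hs hN
    refine step_a hH hdec hs (hH.up _ hN _ ?_)
    rintro n ⟨h1, h2, h3⟩
    refine ⟨h1, h2, fun h4 => h3 ?_⟩
    rcases Tau_insert (G := G) h2 with h | h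
    · show G (insert n s) (Tau G (insert n s))
      rw [h]; exact h4
    · exact h.2)
  -- tasks
  let R : Finset ℕ × ℕ → Set ℕ → Prop := fun i B => ∀ C : Set ℕ, C.Infinite → seg C i.2 = i.1 →
    (∀ x ∈ C, i.2 ≤ x → x ∈ B) → (∀ x ∈ i.1, x ∈ A₁) → ∃ m' ≥ i.2, tau G C m' ≠ tau G C i.2
  have hdown : ∀ i A B, B ⊆ A → R i A → R i B := fun i A B h hR C h1 h2 h3 h4 =>
    hR C h1 h2 (fun x hx hx' => h (h3 x hx hx')) h4
  obtain ⟨A₂, hA₂, hA₂A, hA₂R⟩ := hH.fusion R hdown
    (fun n => (Finset.range (n + 1)).powerset ×ˢ {n + 1}) hA₁ (by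
    rintro ⟨s, m⟩ A' hA' hA'A
    by_cases hs : (∀ x ∈ s, x < m) ∧ ∀ x ∈ s, x ∈ A₁
    · have hsG : G s (Tau G s) := by
        have := hA₁G (s : Set ℕ) (fun x hx => hs.2 x hx) m
        rwa [seg_coe hs.1] at this
      obtain ⟨B, hB, hBA, hcase⟩ := hH.galvin {u | ∃ k, G (s ∪ u) (Tau G s ++ [k])}
        (hH.tail_mem hA' m)
      rcases hcase with h1 | h1
      · refine ⟨B, hB, hBA.trans (tl_sub _ _), fun C hCi hCs hCB _ => ?_⟩
        by_contra hcon
        push Not at hcon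
        simp only at hcon hCs hCB
        obtain ⟨j, hj, k, hk⟩ := h1 {x | x ∈ C ∧ m ≤ x} (fun x hx => hCB x hx.1 hx.2) (by
          refine (hCi.sdiff (Set.finite_Iio m)).mono ?_
          rintro x ⟨h2, h3⟩
          exact ⟨h2, not_lt.1 h3⟩)
        have hseg : s ∪ seg {x | x ∈ C ∧ m ≤ x} (j + 1) = seg C (j + 1) := by
          ext x
          rw [Finset.mem_union, mem_seg, mem_seg, ← hCs, mem_seg]
          constructor
          · rintro (⟨h2, h3⟩ | ⟨h2, h3⟩)
            · exact ⟨by have := hj.2; omega, h3⟩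
            · exact ⟨h2, h3.1⟩
          · rintro ⟨h2, h3⟩
            rcases Nat.lt_or_ge x m with h4 | h4
            · exact Or.inl ⟨h4, h3⟩
            · exact Or.inr ⟨h2, h3, h4⟩
        rw [hseg] at hk
        have hT : tau G C m = Tau G s := by rw [tau_eq_Tau, hCs]
        have h5 : tau G C j = Tau G s := (hcon j hj.2).trans hT
        refine tau_ne (G := G) hj.1 ⟨k, by rw [h5]; exact hk⟩ ?_
        rw [hcon (j + 1) (by have := hj.2; omega), hcon j hj.2]
      · exfalso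
        refine step_b hH hdec hsG hB ((hBA.trans (tl_sub _ _)).trans (hA'A.trans hA₁A)) ?_
          fun u hu huB k hk => h1 u hu huB ⟨k, hk⟩
        intro x hx y hy
        have h2 := (hBA hx).2
        have h3 := hs.1 y hy
        omega
    · refine ⟨A', hA', le_rfl, fun C hCi hCs hCB hsA => ?_⟩
      exfalso
      refine hs ⟨fun x hx => ?_, hsA⟩
      simp only at hCs
      rw [← hCs] at hx
      exact (mem_seg.1 hx).1)
  -- the witness along `A₂`
  have hlen : ∀ L, ∃ n, L ≤ (tau G A₂ n).length := by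
    intro L
    induction L with
    | zero => exact ⟨0, Nat.zero_le _⟩
    | succ L ih =>
      obtain ⟨n, hn⟩ := ih
      obtain ⟨x, hx, hxn⟩ := (hH.inf _ hA₂).exists_gt n
      obtain ⟨m', hm', hne⟩ := hA₂R x hx (seg A₂ (x + 1), x + 1) (by
        rw [Finset.mem_product]
        exact ⟨seg_sub_range _ _, Finset.mem_singleton_self _⟩) A₂ (hH.inf _ hA₂) rfl
        (fun y hy h => ⟨hy, h⟩) fun y hy => hA₂A (mem_seg.1 hy).2
      simp only at hm' hne
      have h1 := tau_prefix (G := G) A₂ hm'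
      have h2 : (tau G A₂ (x + 1)).length < (tau G A₂ m').length := by
        refine lt_of_le_of_ne h1.length_le fun h => hne (h1.eq_of_length h).symm
      have h3 := (tau_prefix (G := G) A₂ (show n ≤ x + 1 by omega)).length_le
      exact ⟨m', by omega⟩
  choose Nn hNn using hlen
  let g : ℕ → ℕ := fun i => (tau G A₂ (Nn (i + 1))).getD i 0
  have hg : ∀ n, Ext (tau G A₂ n) g := by
    intro n i hi
    have h1 := hNn (i + 1)
    rcases le_total n (Nn (i + 1)) with h | h
    · exact getD_prefix (tau_prefix A₂ h) hi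
    · exact (getD_prefix (tau_prefix A₂ h) (by omega)).symm
  refine ⟨A₂, hA₂, g, hcl A₂ g fun k => ?_⟩
  set n := max k (Nn k) with hn
  have h1 := hA₁G A₂ hA₂A n
  have h2 : k ≤ (tau G A₂ n).length :=
    (hNn k).trans (tau_prefix A₂ (le_max_right _ _)).length_le
  rw [← tau_eq_Tau] at h1
  obtain ⟨C', hC', g', hg', hP⟩ := h1 (tl A₀ n) (hH.tail_mem hA₀ n) (tl_sub _ _)
  refine ⟨C', g', hP, fun i hi => ?_, fun i hi => ?_⟩
  · constructor
    · intro h
      rcases hC'.2.2 i h with h3 | h3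
      · exact (mem_seg.1 h3).2
      · have := h3.1.2
        omega
    · intro h
      exact hC'.2.1 i (mem_seg.2 ⟨by omega, h⟩)
  · rw [hg' i (by omega), hg n i (by omega)]

end Pool.Agent.V11244.LR
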