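import Pool.Agent.V11244.ZMad.LRb

set_option autoImplicit false

/-!
# A local Ramsey theorem for selective coideals and analytic sets, III
-/

namespace Pool.Agent.V11244.LR

open Set Filter Topology

open Classical in
/-- The characteristic function. -/
noncomputable def chi (C : Set ℕ) : ℕ → Bool := fun n => decide (n ∈ C)

theorem chi_eq_iff {C D : Set ℕ} {i : ℕ} : chi C i = chi D i ↔ (i ∈ C ↔ i ∈ D) := by
  simp [chi]

variable {H : Set (Set ℕ)}

/-- **The local Ramsey theorem for analytic sets.** -/
theorem Happy.analytic (hH : Happy H) {S : Set (ℕ → Bool)} (hS : MeasureTheory.AnalyticSet S)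
    (hd : ∀ A ∈ H, ∃ C ⊆ A, C.Infinite ∧ chi C ∈ S) (hne : ∃ A, A ∈ H) :
    ∃ A ∈ H, chi A ∈ S := by
  rw [MeasureTheory.AnalyticSet] at hS
  rcases hS with rfl | ⟨f, hf, rfl⟩
  · obtain ⟨A, hA⟩ := hne
    obtain ⟨C, -, -, h⟩ := hd A hA
    exact absurd h (by simp)
  · obtain ⟨A, hA, g, hg⟩ := hH.main (P := fun C g => f g = chi C) (by
      intro C g h
      choose C' g' h1 h2 h3 using h
      have hg : Tendsto g' atTop (𝓝 g) := by
        rw [tendsto_pi_nhds]
        intro i
        refine tendsto_const_nhds.congr' ?_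
        filter_upwards [eventually_gt_atTop i] with k hk
        exact (h3 k i hk).symm
      have hC : Tendsto (fun k => chi (C' k)) atTop (𝓝 (chi C)) := by
        rw [tendsto_pi_nhds]
        intro i
        refine tendsto_const_nhds.congr' ?_
        filter_upwards [eventually_gt_atTop i] with k hk
        exact (chi_eq_iff.2 (h2 k i hk)).symm
      have h4 : Tendsto (fun k => f (g' k)) atTop (𝓝 (f g)) := (hf.tendsto g).comp hg
      simp_rw [h1] at h4
      exact tendsto_nhds_unique h4 hC) (by
      intro A hA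
      obtain ⟨C, hCA, hCi, g, hg⟩ := hd A hA
      exact ⟨C, hCA, hCi, g, hg⟩) hne
    exact ⟨A, hA, g, hg⟩

end Pool.Agent.V11244.LR
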