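import Pool.Agent.V11244.ZMad.LRc

set_option autoImplicit false

/-!
# Almost disjoint families modulo the density zero ideal: exhaustion and selectivity
-/

namespace Pool.Agent.V11244.ZM

open Set Filter Topology Pool.Agent.V11244.LR

open Classical in
/-- The normalised counting measure of the dyadic block `[2 ^ n, 2 ^ (n + 1))`. -/
noncomputable def mu (n : ℕ) (X : Set ℕ) : ℝ :=
  (((Finset.Ico (2 ^ n) (2 ^ (n + 1))).filter (· ∈ X)).card : ℝ) / 2 ^ n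

theorem mu_nonneg (n : ℕ) (X : Set ℕ) : 0 ≤ mu n X := by
  unfold mu; positivity

theorem mu_congr {n : ℕ} {X Y : Set ℕ}
    (h : ∀ x, 2 ^ n ≤ x → x < 2 ^ (n + 1) → (x ∈ X ↔ x ∈ Y)) : mu n X = mu n Y := by
  classical
  unfold mu
  congr 3
  refine Finset.filter_congr fun x hx => ?_
  rw [Finset.mem_Ico] at hx
  exact h x hx.1 hx.2

theorem mu_mono_of {n : ℕ} {X Y : Set ℕ}
    (h : ∀ x, 2 ^ n ≤ x → x < 2 ^ (n + 1) → x ∈ X → x ∈ Y) : mu n X ≤ mu n Y := by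
  classical
  unfold mu
  refine div_le_div_of_nonneg_right ?_ (by positivity)
  norm_cast
  refine Finset.card_le_card fun x hx => ?_
  rw [Finset.mem_filter] at hx ⊢
  have := Finset.mem_Ico.1 hx.1
  exact ⟨hx.1, h x this.1 this.2 hx.2⟩

theorem mu_mono {n : ℕ} {X Y : Set ℕ} (h : X ⊆ Y) : mu n X ≤ mu n Y :=
  mu_mono_of fun _ _ _ hx => h hx

theorem mu_univ (n : ℕ) : mu n Set.univ = 1 := by
  classical
  unfold mu
  have h2 : ((Finset.Ico (2 ^ n) (2 ^ (n + 1))).card : ℝ) / 2 ^ n = 1 := by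
    rw [Nat.card_Ico]
    have : 2 ^ (n + 1) - 2 ^ n = 2 ^ n := by
      have : 2 ^ (n + 1) = 2 ^ n * 2 := pow_succ _ _
      omega
    rw [this]
    push_cast
    exact div_self (by positivity)
  convert h2 using 4
  ext x
  simp

theorem mu_le_one (n : ℕ) (X : Set ℕ) : mu n X ≤ 1 := by
  rw [← mu_univ n]; exact mu_mono (Set.subset_univ _)

theorem mu_empty (n : ℕ) : mu n ∅ = 0 := by
  unfold mu; simp

theorem mu_split (n : ℕ) (X Y : Set ℕ) : mu n X = mu n (X ∩ Y) + mu n (X \ Y) := by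
  classical
  unfold mu
  rw [← add_div]
  congr 1
  norm_cast
  rw [← Finset.card_filter_add_card_filter_not (s := (Finset.Ico (2 ^ n) (2 ^ (n + 1))).filter (· ∈ X))
    (· ∈ Y), Finset.filter_filter, Finset.filter_filter]
  congr 2 <;> (ext x; simp)

theorem mu_union_le (n : ℕ) (X Y : Set ℕ) : mu n (X ∪ Y) ≤ mu n X + mu n Y := by
  rw [mu_split n (X ∪ Y) X]
  refine add_le_add (mu_mono Set.inter_subset_right) (mu_mono ?_)
  rintro x ⟨h1 | h1, h2⟩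
  · exact absurd h1 h2
  · exact h1

/-- The density zero ideal, by blocks. -/
def Z0 (X : Set ℕ) : Prop := Tendsto (fun n => mu n X) atTop (𝓝 0)

theorem Z0_iff {X : Set ℕ} : Z0 X ↔ ∀ y > 0, ∀ᶠ n in atTop, mu n X < y := by
  unfold Z0
  rw [Metric.tendsto_atTop]
  simp only [Filter.eventually_atTop, Real.dist_eq, sub_zero, abs_of_nonneg (mu_nonneg _ _)]

theorem not_Z0 {X : Set ℕ} (h : ¬ Z0 X) : ∃ y > 0, {n | y ≤ mu n X}.Infinite := by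
  rw [Z0_iff] at h
  push Not at h
  obtain ⟨y, hy, h⟩ := h
  exact ⟨y, hy, Nat.frequently_atTop_iff_infinite.1 h⟩

theorem not_Z0_of {X : Set ℕ} {y : ℝ} (hy : 0 < y) (h : {n | y ≤ mu n X}.Infinite) : ¬ Z0 X := by
  intro hz
  rw [Z0_iff] at hz
  obtain ⟨N, hN⟩ := eventually_atTop.1 (hz y hy)
  obtain ⟨n, hn, hnN⟩ := h.exists_gt N
  exact absurd (hN n hnN.le) (not_lt.2 hn)

theorem Z0_mono {X Y : Set ℕ} (h : X ⊆ Y) (hY : Z0 Y) : Z0 X := by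
  rw [Z0_iff] at hY ⊢
  exact fun y hy => (hY y hy).mono fun n hn => (mu_mono h).trans_lt hn

theorem Z0_empty : Z0 ∅ := by
  rw [Z0_iff]; exact fun y hy => Eventually.of_forall fun n => by rw [mu_empty]; exact hy

theorem Z0_union {X Y : Set ℕ} (hX : Z0 X) (hY : Z0 Y) : Z0 (X ∪ Y) := by
  rw [Z0_iff] at hX hY ⊢
  intro y hy
  filter_upwards [hX (y / 2) (by positivity), hY (y / 2) (by positivity)] with n h1 h2
  have := mu_union_le n X Y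
  linarith

variable {𝒜 : Set (Set ℕ)}

theorem near_sup (X : Set ℕ) (D : Set ℕ) (hD : D.Infinite) (η : ℝ) (hη : 0 < η) :
    ∃ (T : Finset (Set ℕ)) (E : Set ℕ) (w : ℝ), (T : Set (Set ℕ)) ⊆ 𝒜 ∧ E ⊆ D ∧ E.Infinite ∧
      (∀ n ∈ E, w ≤ mu n (X ∩ ⋃₀ (T : Set (Set ℕ)))) ∧
      ∀ (T' : Finset (Set ℕ)) (E' : Set ℕ) (w' : ℝ), (T' : Set (Set ℕ)) ⊆ 𝒜 → E' ⊆ D →
        E'.Infinite → (∀ n ∈ E', w' ≤ mu n (X ∩ ⋃₀ (T' : Set (Set ℕ)))) → w' ≤ w + η := by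
  classical
  let V : Set ℝ := {w | ∃ (T : Finset (Set ℕ)) (E : Set ℕ), (T : Set (Set ℕ)) ⊆ 𝒜 ∧ E ⊆ D ∧
    E.Infinite ∧ ∀ n ∈ E, w ≤ mu n (X ∩ ⋃₀ (T : Set (Set ℕ)))}
  have hV : (0 : ℝ) ∈ V := ⟨∅, D, by simp, le_rfl, hD, fun n _ => mu_nonneg _ _⟩
  have hb : BddAbove V := by
    refine ⟨1, ?_⟩
    rintro w ⟨T, E, _, _, hE, hw⟩
    obtain ⟨n, hn⟩ := hE.nonempty
    exact (hw n hn).trans (mu_le_one _ _)
  obtain ⟨w, ⟨T, E, h1, h2, h3, h4⟩, hw⟩ :=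
    exists_lt_of_lt_csSup ⟨0, hV⟩ (show sSup V - η < sSup V by linarith)
  refine ⟨T, E, w, h1, h2, h3, h4, fun T' E' w' h5 h6 h7 h8 => ?_⟩
  have := le_csSup hb (show w' ∈ V from ⟨T', E', h5, h6, h7, h8⟩)
  linarith

theorem log_eq {n x : ℕ} (h1 : 2 ^ n ≤ x) (h2 : x < 2 ^ (n + 1)) : Nat.log 2 x = n :=
  Nat.log_eq_of_pow_le_of_lt_pow h1 h2

/-- **Exhaustion.** -/
theorem exhaust (hmax : ∀ X, ¬ Z0 X → ∃ A ∈ 𝒜, ¬ Z0 (X ∩ A)) (X : Set ℕ) {D : Set ℕ}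
    (hD : D.Infinite) {δ : ℝ} (hδ : 0 < δ) :
    ∃ (T : Finset (Set ℕ)) (E : Set ℕ), (T : Set (Set ℕ)) ⊆ 𝒜 ∧ E ⊆ D ∧ E.Infinite ∧
      ∀ n ∈ E, mu n (X \ ⋃₀ (T : Set (Set ℕ))) ≤ δ := by
  classical
  by_contra hcon
  have hcon' : ∀ (T : Finset (Set ℕ)) (E : Set ℕ), (T : Set (Set ℕ)) ⊆ 𝒜 → E ⊆ D → E.Infinite →
      {n | n ∈ E ∧ δ ≤ mu n (X \ ⋃₀ (T : Set (Set ℕ)))}.Infinite := by
    intro T E h1 h2 h3 hfin
    refine hcon ⟨T, E \ {n | n ∈ E ∧ δ ≤ mu n (X \ ⋃₀ (T : Set (Set ℕ)))}, h1,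
      Set.sdiff_subset.trans h2, h3.sdiff hfin, fun n hn => ?_⟩
    by_contra hlt
    exact hn.2 ⟨hn.1, (not_le.1 hlt).le⟩
  have hstep : ∀ (D' : Set ℕ) (k : ℕ), ∃ (T : Finset (Set ℕ)) (E : Set ℕ) (w : ℝ), D'.Infinite →
      ((T : Set (Set ℕ)) ⊆ 𝒜 ∧ E ⊆ D' ∧ E.Infinite ∧
      (∀ n ∈ E, w ≤ mu n (X ∩ ⋃₀ (T : Set (Set ℕ)))) ∧
      ∀ (T' : Finset (Set ℕ)) (E' : Set ℕ) (w' : ℝ), (T' : Set (Set ℕ)) ⊆ 𝒜 → E' ⊆ D' →
        E'.Infinite → (∀ n ∈ E', w' ≤ mu n (X ∩ ⋃₀ (T' : Set (Set ℕ)))) → w' ≤ w + 1 / (k + 1)) := by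
    intro D' k
    by_cases h : D'.Infinite
    · obtain ⟨T, E, w, h1⟩ := near_sup (𝒜 := 𝒜) X D' h (1 / ((k : ℝ) + 1)) (by positivity)
      exact ⟨T, E, w, fun _ => h1⟩
    · exact ⟨∅, ∅, 0, fun h' => absurd h' h⟩
  choose fT fE fw hf using hstep
  let Ds : ℕ → Set ℕ := fun k => Nat.rec D (fun k D' => fE D' k) k
  have hDs : ∀ k, Ds (k + 1) = fE (Ds k) k := fun k => rfl
  have hinf : ∀ k, (Ds k).Infinite := by
    intro k
    induction k with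
    | zero => exact hD
    | succ k ih => rw [hDs]; exact (hf _ k ih).2.2.1
  have hanti : Antitone Ds := antitone_nat_of_succ_le fun k => (hf _ k (hinf k)).2.1
  have hDsD : ∀ k, Ds k ⊆ D := fun k => hanti (Nat.zero_le k)
  let Tk : ℕ → Finset (Set ℕ) := fun k => fT (Ds k) k
  let Uk : ℕ → Finset (Set ℕ) := fun k => (Finset.range k).biUnion Tk
  have hTk : ∀ k, (Tk k : Set (Set ℕ)) ⊆ 𝒜 := fun k => (hf _ k (hinf k)).1
  have hUk : ∀ k, (Uk k : Set (Set ℕ)) ⊆ 𝒜 := by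
    intro k A hA
    obtain ⟨j, _, hj⟩ := Finset.mem_biUnion.1 (Finset.mem_coe.1 hA)
    exact hTk j hj
  obtain ⟨ν, hν, hνS⟩ := Filter.extraction_forall_of_frequently (P := fun k n => n ∈ Ds (k + 1) ∧
    δ ≤ mu n (X \ ⋃₀ (Uk (k + 1) : Set (Set ℕ)))) fun k =>
      Nat.frequently_atTop_iff_infinite.2 (hcon' _ _ (hUk _) (hDsD (k + 1)) (hinf (k + 1)))
  let Y : Set ℕ := {x | x ∈ X ∧ ∃ k, Nat.log 2 x = ν k ∧ x ∉ ⋃₀ (Uk (k + 1) : Set (Set ℕ))}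
  have hYk : ∀ k, mu (ν k) Y = mu (ν k) (X \ ⋃₀ (Uk (k + 1) : Set (Set ℕ))) := by
    intro k
    refine mu_congr fun x h1 h2 => ?_
    constructor
    · rintro ⟨h3, k', h4, h5⟩
      rw [log_eq h1 h2] at h4
      rw [← hν.injective h4] at h5
      exact ⟨h3, h5⟩
    · rintro ⟨h3, h4⟩
      exact ⟨h3, k, log_eq h1 h2, h4⟩
  have hY : ¬ Z0 Y := by
    refine not_Z0_of hδ ((Set.infinite_range_of_injective hν.injective).mono ?_)
    rintro _ ⟨k, rfl⟩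
    show δ ≤ mu (ν k) Y
    rw [hYk]
    exact (hνS k).2
  obtain ⟨A, hA, hYA⟩ := hmax Y hY
  obtain ⟨y, hy, hyinf⟩ := not_Z0 hYA
  have hyν : ∀ n, y ≤ mu n (Y ∩ A) → ∃ j, n = ν j := by
    intro n hn
    by_contra hcon
    push Not at hcon
    have : mu n (Y ∩ A) = mu n ∅ := by
      refine mu_congr fun x h1 h2 => ?_
      constructor
      · rintro ⟨⟨_, k, h3, _⟩, _⟩
        rw [log_eq h1 h2] at h3
        exact absurd h3 (hcon k)
      · intro h; exact absurd h (Set.notMem_empty _)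
    rw [this, mu_empty] at hn
    linarith
  have hK : ∀ K : ℕ, y ≤ 1 / ((K : ℝ) + 1) := by
    intro K
    have hf' := hf (Ds K) K (hinf K)
    have h1 := hf'.2.2.2.2 (insert A (Tk K)) ({n | y ≤ mu n (Y ∩ A)} \ (ν '' Set.Iio K))
      (fw (Ds K) K + y) (by
        intro B hB
        rw [Finset.coe_insert] at hB
        rcases hB with rfl | hB
        · exact hA
        · exact hTk K hB) (by
        rintro n ⟨hn, hnK⟩
        obtain ⟨j, rfl⟩ := hyν n hn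
        have hKj : K ≤ j := by
          by_contra hlt
          exact hnK ⟨j, not_le.1 hlt, rfl⟩
        exact hanti (show K ≤ j + 1 by omega) (hνS j).1) (hyinf.sdiff ((Set.finite_Iio K).image ν)) (by
        rintro n ⟨hn, hnK⟩
        obtain ⟨j, rfl⟩ := hyν n hn
        have hKj : K ≤ j := by
          by_contra hlt
          exact hnK ⟨j, not_le.1 hlt, rfl⟩
        have h2 : ν j ∈ fE (Ds K) K := by
          rw [← hDs]; exact hanti (show K + 1 ≤ j + 1 by omega) (hνS j).1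
        have h3 := hf'.2.2.2.1 _ h2
        rw [mu_split (ν j) (X ∩ ⋃₀ ((insert A (Tk K) : Finset (Set ℕ)) : Set (Set ℕ)))
          (⋃₀ (Tk K : Set (Set ℕ)))]
        refine add_le_add ?_ ?_
        · refine h3.trans (mu_mono ?_)
          rintro x ⟨h4, B, hB, hxB⟩
          exact ⟨⟨h4, B, by rw [Finset.coe_insert]; exact Or.inr hB, hxB⟩, B, hB, hxB⟩
        · refine le_trans hn (mu_mono_of ?_)
          rintro x hx1 hx2 ⟨⟨h4, k, h5, h6⟩, h7⟩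
          rw [log_eq hx1 hx2] at h5
          have hjk := hν.injective h5
          subst hjk
          refine ⟨⟨h4, A, by rw [Finset.coe_insert]; exact Or.inl rfl, h7⟩, ?_⟩
          rintro ⟨B, hB, hxB⟩
          exact h6 ⟨B, Finset.mem_coe.2 (Finset.mem_biUnion.2
            ⟨K, Finset.mem_range.2 (by omega), Finset.mem_coe.1 hB⟩), hxB⟩)
    linarith
  obtain ⟨K, hK'⟩ := exists_nat_one_div_lt hy
  exact absurd (hK K) (not_le.2 hK')

end Pool.Agent.V11244.ZM
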