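import Pool.Agent.V11244.ZMad.ZM

set_option autoImplicit false

/-!
# Almost disjoint families modulo the density zero ideal: the coideals are selective
-/

namespace Pool.Agent.V11244.ZM

open Set Filter Topology Pool.Agent.V11244.LR

variable {𝒜 : Set (Set ℕ)}

/-- The sets of blocks on which finite subfamilies of `𝒜` leave a part of measure `r`. -/
def HH (𝒜 : Set (Set ℕ)) (r : ℝ) : Set (Set ℕ) :=
  {D | ∀ T : Finset (Set ℕ), (T : Set (Set ℕ)) ⊆ 𝒜 → ∀ ε > 0,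
    {n | n ∈ D ∧ r - ε < mu n (⋃₀ (T : Set (Set ℕ)))ᶜ}.Infinite}

theorem Z0_inter {T T' : Finset (Set ℕ)} (h : ∀ A ∈ T, ∀ B ∈ T', Z0 (A ∩ B)) :
    Z0 (⋃₀ (T : Set (Set ℕ)) ∩ ⋃₀ (T' : Set (Set ℕ))) := by
  classical
  induction T using Finset.induction_on with
  | empty => simpa using Z0_empty
  | insert A T _ ih =>
    have h1 : Z0 (A ∩ ⋃₀ (T' : Set (Set ℕ))) := by
      have h2 : ∀ B ∈ T', Z0 (A ∩ B) := h A (Finset.mem_insert_self _ _)
      clear ih h
      induction T' using Finset.induction_on with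
      | empty => simpa using Z0_empty
      | insert B T' _ ih =>
        rw [Finset.coe_insert, Set.sUnion_insert, Set.inter_union_distrib_left]
        exact Z0_union (h2 B (Finset.mem_insert_self _ _))
          (ih fun B' hB' => h2 B' (Finset.mem_insert_of_mem hB'))
    rw [Finset.coe_insert, Set.sUnion_insert, Set.union_inter_distrib_right]
    exact Z0_union h1 (ih fun A' hA' => h A' (Finset.mem_insert_of_mem hA'))

theorem step_P (hmax : ∀ X, ¬ Z0 X → ∃ A ∈ 𝒜, ¬ Z0 (X ∩ A)) {r : ℝ} {D : ℕ → Set ℕ}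
    (hanti : Antitone D) (hD : ∀ k, D k ∈ HH 𝒜 r) {U : Finset (Set ℕ)}
    (hU : (U : Set (Set ℕ)) ⊆ 𝒜) {η : ℝ} (hη : 0 < η) :
    ∃ (T : Finset (Set ℕ)) (E : Set ℕ), (T : Set (Set ℕ)) ⊆ 𝒜 ∧ Disjoint T U ∧ E.Infinite ∧
      (∀ k, {n | n ∈ E ∧ n ∉ D k}.Finite) ∧
      ∀ n ∈ E, r - η ≤ mu n (⋃₀ (T : Set (Set ℕ)) \ ⋃₀ (U : Set (Set ℕ))) := by
  classical
  obtain ⟨ν, hν, hνS⟩ := Filter.extraction_forall_of_frequently (P := fun k n => n ∈ D k ∧
    r - η / 2 < mu n (⋃₀ (U : Set (Set ℕ)))ᶜ) fun k =>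
      Nat.frequently_atTop_iff_infinite.2 (hD k U hU (η / 2) (by positivity))
  obtain ⟨T, E, hT, hE, hEi, hET⟩ := exhaust hmax (⋃₀ (U : Set (Set ℕ)))ᶜ
    (Set.infinite_range_of_injective hν.injective) (δ := η / 2) (by positivity)
  refine ⟨T \ U, E, fun A hA => hT (Finset.mem_sdiff.1 (Finset.mem_coe.1 hA)).1,
    Finset.sdiff_disjoint, hEi, fun k => ?_, fun n hn => ?_⟩
  · refine ((Set.finite_Iio k).image ν).subset ?_
    rintro n ⟨hn, hnD⟩
    obtain ⟨j, rfl⟩ := hE hn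
    refine ⟨j, ?_, rfl⟩
    by_contra hlt
    exact hnD (hanti (not_lt.1 hlt) (hνS j).1)
  · have h1 := hET n hn
    obtain ⟨j, rfl⟩ := hE hn
    have h2 := (hνS j).2
    have h3 := mu_split (ν j) (⋃₀ (U : Set (Set ℕ)))ᶜ (⋃₀ (T : Set (Set ℕ)))
    have h4 : mu (ν j) ((⋃₀ (U : Set (Set ℕ)))ᶜ ∩ ⋃₀ (T : Set (Set ℕ))) ≤
        mu (ν j) (⋃₀ ((T \ U : Finset (Set ℕ)) : Set (Set ℕ)) \ ⋃₀ (U : Set (Set ℕ))) := by
      refine mu_mono ?_
      rintro x ⟨hx, B, hB, hxB⟩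
      refine ⟨⟨B, ?_, hxB⟩, hx⟩
      rw [Finset.mem_coe, Finset.mem_sdiff]
      exact ⟨hB, fun h => hx ⟨B, h, hxB⟩⟩
    linarith

theorem happy_HH (hmax : ∀ X, ¬ Z0 X → ∃ A ∈ 𝒜, ¬ Z0 (X ∩ A))
    (had : ∀ A ∈ 𝒜, ∀ B ∈ 𝒜, A ≠ B → Z0 (A ∩ B)) (r : ℝ) : Happy (HH 𝒜 r) := by
  classical
  refine ⟨?_, ?_, ?_, ?_⟩
  · intro A hA
    refine (hA ∅ (by simp) 1 one_pos).mono fun n hn => hn.1
  · intro A hA B hAB T hT ε hε
    exact (hA T hT ε hε).mono fun n hn => ⟨hAB hn.1, hn.2⟩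
  · intro A B hAB
    by_contra hcon
    simp only [not_or, HH, Set.mem_ofPred_eq, not_forall, Set.not_infinite] at hcon
    obtain ⟨⟨T, hT, ε, hε, h1⟩, T', hT', ε', hε', h2⟩ := hcon
    refine (hAB (T ∪ T') (by rw [Finset.coe_union]; exact Set.union_subset hT hT') (min ε ε')
      (lt_min hε hε')) ((h1.union h2).subset ?_)
    rintro n ⟨hn, hn2⟩
    have h3 : mu n (⋃₀ ((T ∪ T' : Finset (Set ℕ)) : Set (Set ℕ)))ᶜ ≤
        mu n (⋃₀ (T : Set (Set ℕ)))ᶜ := mu_mono (Set.compl_subset_compl.2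
          (Set.sUnion_subset_sUnion (by rw [Finset.coe_union]; exact Set.subset_union_left)))
    have h4 : mu n (⋃₀ ((T ∪ T' : Finset (Set ℕ)) : Set (Set ℕ)))ᶜ ≤
        mu n (⋃₀ (T' : Set (Set ℕ)))ᶜ := mu_mono (Set.compl_subset_compl.2
          (Set.sUnion_subset_sUnion (by rw [Finset.coe_union]; exact Set.subset_union_right)))
    have h5 := min_le_left ε ε'
    have h6 := min_le_right ε ε'
    rcases hn with hn | hn
    · exact Or.inl ⟨hn, by linarith⟩
    · exact Or.inr ⟨hn, by linarith⟩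
  · intro D hanti hD
    have hstep : ∀ (U : Finset (Set ℕ)) (i : ℕ), ∃ (T : Finset (Set ℕ)) (E : Set ℕ),
        (U : Set (Set ℕ)) ⊆ 𝒜 → ((T : Set (Set ℕ)) ⊆ 𝒜 ∧ Disjoint T U ∧ E.Infinite ∧
        (∀ k, {n | n ∈ E ∧ n ∉ D k}.Finite) ∧
        ∀ n ∈ E, r - 1 / ((i : ℝ) + 1) ≤ mu n (⋃₀ (T : Set (Set ℕ)) \ ⋃₀ (U : Set (Set ℕ)))) := by
      intro U i
      by_cases hU : (U : Set (Set ℕ)) ⊆ 𝒜
      · obtain ⟨T, E, h⟩ := step_P hmax hanti hD hU (show 0 < 1 / ((i : ℝ) + 1) by positivity)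
        exact ⟨T, E, fun _ => h⟩
      · exact ⟨∅, ∅, fun h => absurd h hU⟩
    choose fT fE hf using hstep
    let U : ℕ → Finset (Set ℕ) :=
      fun i => Nat.rec (motive := fun _ => Finset (Set ℕ)) ∅ (fun i V => V ∪ fT V i) i
    have hUs : ∀ i, U (i + 1) = U i ∪ fT (U i) i := fun i => rfl
    have hU : ∀ i : ℕ, ((U i : Finset (Set ℕ)) : Set (Set ℕ)) ⊆ 𝒜 := by
      intro i
      induction i with
      | zero => simp [U]
      | succ i ih =>
        rw [hUs, Finset.coe_union]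
        exact Set.union_subset ih (hf _ i ih).1
    have hUm : Monotone U := monotone_nat_of_le_succ fun i => by
      rw [hUs]; exact Finset.subset_union_left
    have hEi : ∀ i, (fE (U i) i).Infinite := fun i => (hf _ i (hU i)).2.2.1
    have hnext : ∀ (m j k : ℕ), ∃ n, m < n ∧ n ∈ D m ∧ n ∈ fE (U j) j := by
      intro m j k
      have h1 := (hEi j).sdiff ((hf _ j (hU j)).2.2.2.1 m)
      obtain ⟨n, hn, hmn⟩ := h1.exists_gt m
      refine ⟨n, hmn, ?_, hn.1⟩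
      by_contra hcon
      exact hn.2 ⟨hn.1, hcon⟩
    choose nx hnx1 hnx2 hnx3 using hnext
    let b : ℕ → ℕ := fun j => Nat.rec (nx 0 0 0) (fun j m => nx m (Nat.unpair (j + 1)).1 0) j
    have hbs : ∀ j, b (j + 1) = nx (b j) (Nat.unpair (j + 1)).1 0 := fun j => rfl
    have hbm : StrictMono b := strictMono_nat_of_lt_succ fun j => by rw [hbs]; exact hnx1 _ _ _
    have hb0 : b 0 ∈ D 0 := hnx2 0 0 0
    have hbD : ∀ j, b (j + 1) ∈ D (b j) := fun j => by rw [hbs]; exact hnx2 _ _ _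
    have hbE : ∀ j, b (j + 1) ∈ fE (U (Nat.unpair (j + 1)).1) (Nat.unpair (j + 1)).1 := fun j => by
      rw [hbs]; exact hnx3 _ _ _
    refine ⟨Set.range b, ?_, ?_, ?_⟩
    · intro T hT ε hε
      -- choose a good index
      have h1 : {i | ¬ Disjoint (fT (U i) i) T}.Finite := by
        have h2 : {i | ¬ Disjoint (fT (U i) i) T} ⊆ ⋃ A ∈ T, {i | A ∈ fT (U i) i} := by
          intro i hi
          simp only [Set.mem_ofPred_eq, Finset.not_disjoint_iff] at hi
          obtain ⟨A, h3, h4⟩ := hi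
          simp only [Set.mem_iUnion]
          exact ⟨A, h4, h3⟩
        refine Set.Finite.subset (Set.Finite.biUnion T.finite_toSet fun A _ => ?_) h2
        refine Set.Subsingleton.finite ?_
        have key : ∀ i j, i < j → A ∈ fT (U i) i → A ∈ fT (U j) j → False := by
          intro i j hij h3 h4
          have h5 : A ∈ U j := hUm (show i + 1 ≤ j from hij) (by
            rw [hUs]; exact Finset.mem_union_right _ h3)
          exact Finset.disjoint_left.1 (hf _ j (hU j)).2.1 h4 h5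
        intro i hi j hj
        rcases lt_trichotomy i j with h | h | h
        · exact (key i j h hi hj).elim
        · exact h
        · exact (key j i h hj hi).elim
      obtain ⟨i₀, hi₀⟩ := exists_nat_one_div_lt (show 0 < ε / 2 by positivity)
      obtain ⟨i, hi, hii⟩ := h1.infinite_compl.exists_gt i₀
      have hdis : Disjoint (fT (U i) i) T := by
        by_contra hcon; exact hi hcon
      have hi2 : 1 / ((i : ℝ) + 1) < ε / 2 := by
        refine lt_of_le_of_lt ?_ hi₀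
        refine one_div_le_one_div_of_le (by positivity) ?_
        have : (i₀ : ℝ) ≤ i := by exact_mod_cast hii.le
        linarith
      have hz : Z0 (⋃₀ (fT (U i) i : Set (Set ℕ)) ∩ ⋃₀ (T : Set (Set ℕ))) := by
        refine Z0_inter fun A hA B hB => had A ((hf _ i (hU i)).1 hA) B (hT hB) ?_
        rintro rfl
        exact Finset.disjoint_left.1 hdis hA hB
      rw [Z0_iff] at hz
      obtain ⟨N, hN⟩ := eventually_atTop.1 (hz (ε / 2) (by positivity))
      have hJ : {j | (Nat.unpair (j + 1)).1 = i ∧ N ≤ b (j + 1)}.Infinite := by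
        refine Set.infinite_of_not_bddAbove ?_
        rintro ⟨M, hM⟩
        have h3 : max M N + 2 ≤ Nat.pair i (max M N + 2) := Nat.right_le_pair _ _
        have h4 := hM (show Nat.pair i (max M N + 2) - 1 ∈
          {j | (Nat.unpair (j + 1)).1 = i ∧ N ≤ b (j + 1)} from by
            have h5 : Nat.pair i (max M N + 2) - 1 + 1 = Nat.pair i (max M N + 2) := by omega
            refine ⟨by rw [h5, Nat.unpair_pair], ?_⟩
            rw [h5]
            have h6 := hbm.le_apply (x := Nat.pair i (max M N + 2))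
            omega)
        omega
      have hJ2 := hJ.image (f := fun j => b (j + 1)) (by
        intro x _ y _ hxy
        have : x + 1 = y + 1 := hbm.injective hxy
        omega)
      refine hJ2.mono ?_
      rintro _ ⟨j, ⟨hj, hjN⟩, rfl⟩
      refine ⟨⟨j + 1, rfl⟩, ?_⟩
      have h3 : b (j + 1) ∈ fE (U i) i := by
        have := hbE j
        rwa [hj] at this
      have h4 := (hf _ i (hU i)).2.2.2.2 _ h3
      have h5 := hN _ hjN
      have h6 := mu_split (b (j + 1)) (⋃₀ (fT (U i) i : Set (Set ℕ))) (⋃₀ (T : Set (Set ℕ)))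
      have h7 : mu (b (j + 1)) (⋃₀ (fT (U i) i : Set (Set ℕ)) \ ⋃₀ (U i : Set (Set ℕ))) ≤
          mu (b (j + 1)) (⋃₀ (fT (U i) i : Set (Set ℕ))) := mu_mono Set.sdiff_subset
      have h8 : mu (b (j + 1)) (⋃₀ (fT (U i) i : Set (Set ℕ)) \ ⋃₀ (T : Set (Set ℕ))) ≤
          mu (b (j + 1)) (⋃₀ (T : Set (Set ℕ)))ᶜ := mu_mono fun x hx => hx.2
      simp only at hjN h5 ⊢
      linarith
    · rintro _ ⟨j, rfl⟩
      cases j with
      | zero => exact hb0
      | succ j => exact hanti (Nat.zero_le _) (hbD j)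
    · rintro _ ⟨i, rfl⟩ _ ⟨j, rfl⟩ hij
      have h1 : i < j := hbm.lt_iff_lt.1 hij
      obtain ⟨j, rfl⟩ : ∃ j', j = j' + 1 := ⟨j - 1, by omega⟩
      exact hanti (hbm.monotone (show i ≤ j by omega)) (hbD j)

theorem exists_r (had : ∀ A ∈ 𝒜, ∀ B ∈ 𝒜, A ≠ B → Z0 (A ∩ B)) (hpos : ∀ A ∈ 𝒜, ¬ Z0 A)
    (hc : ¬ 𝒜.Countable) : ∃ r > 0, Set.univ ∈ HH 𝒜 r := by
  classical
  by_contra hcon
  push Not at hcon
  have h1 : ∀ m : ℕ, ∃ T : Finset (Set ℕ), (T : Set (Set ℕ)) ⊆ 𝒜 ∧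
      ∀ᶠ n in atTop, mu n (⋃₀ (T : Set (Set ℕ)))ᶜ ≤ 1 / ((m : ℝ) + 1) := by
    intro m
    have h := hcon (1 / ((m : ℝ) + 1)) (by positivity)
    simp only [HH, Set.mem_ofPred_eq, not_forall, Set.not_infinite] at h
    obtain ⟨T, hT, ε, hε, h⟩ := h
    refine ⟨T, hT, ?_⟩
    obtain ⟨N, hN⟩ := h.bddAbove
    filter_upwards [eventually_gt_atTop N] with n hn
    by_contra hlt
    have := hN (show n ∈ _ from ⟨Set.mem_univ _, by linarith [not_le.1 hlt]⟩)
    omega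
  choose T hT hTn using h1
  have h2 : (⋃ m, (T m : Set (Set ℕ))).Countable :=
    Set.countable_iUnion fun m => (T m).countable_toSet
  have h3 : ¬ 𝒜 ⊆ ⋃ m, (T m : Set (Set ℕ)) := fun h => hc (h2.mono h)
  obtain ⟨A, hA, hAT⟩ := Set.not_subset.1 h3
  refine hpos A hA ?_
  rw [Z0_iff]
  intro y hy
  obtain ⟨m, hm⟩ := exists_nat_one_div_lt (show 0 < y / 2 by positivity)
  have hz : Z0 (⋃₀ ({A} : Finset (Set ℕ)) ∩ ⋃₀ (T m : Set (Set ℕ))) := by
    refine Z0_inter fun A' hA' B hB => ?_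
    rw [Finset.mem_singleton] at hA'
    subst hA'
    refine had _ hA B (hT m hB) ?_
    rintro rfl
    exact hAT (Set.mem_iUnion.2 ⟨m, hB⟩)
  rw [Z0_iff] at hz
  filter_upwards [hTn m, hz (y / 2) (by positivity)] with n h4 h5
  have h6 := mu_split n A (⋃₀ (T m : Set (Set ℕ)))
  have h7 : mu n (A \ ⋃₀ (T m : Set (Set ℕ))) ≤ mu n (⋃₀ (T m : Set (Set ℕ)))ᶜ :=
    mu_mono fun x hx => hx.2
  rw [Finset.coe_singleton, Set.sUnion_singleton] at h5
  linarith

end Pool.Agent.V11244.ZM
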