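import Pool.Agent.V11244.ZMad.ZMb

set_option autoImplicit false

/-!
# Almost disjoint families modulo the density zero ideal: the analytic colouring and the theorem
-/

namespace Pool.Agent.V11244.ZM

open Set Filter Topology Pool.Agent.V11244.LR MeasureTheory

variable {𝒜 : Set (Set ℕ)}

/-- The measure of the complement of a finite union, as a polynomial in the digits. -/
noncomputable def nu (n K : ℕ) (y : ℕ → ℕ → Bool) : ℝ :=
  (∑ x ∈ Finset.Ico (2 ^ n) (2 ^ (n + 1)), ∏ i ∈ Finset.range K,
    (if y i x = false then (1 : ℝ) else 0)) / 2 ^ n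

open Classical in
/-- The finite family coded by the first `K` members of a sequence. -/
noncomputable def fam (K : ℕ) (y : ℕ → ℕ → Bool) : Finset (Set ℕ) :=
  (Finset.range K).image fun i => {m | y i m = true}

theorem nu_eq (n K : ℕ) (y : ℕ → ℕ → Bool) : nu n K y = mu n (⋃₀ (fam K y : Set (Set ℕ)))ᶜ := by
  classical
  unfold nu mu
  congr 1
  rw [Finset.natCast_card_filter]
  refine Finset.sum_congr rfl fun x _ => ?_
  rw [Finset.prod_ite_zero]
  simp only [Finset.prod_const_one]
  congr 1
  rw [eq_iff_iff]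
  simp only [fam, Finset.coe_image, Set.mem_compl_iff, Set.mem_sUnion, Set.mem_image,
    Finset.mem_coe, not_exists, not_and]
  constructor
  · rintro h _ ⟨i, hi, rfl⟩ hx
    have h1 := h i hi
    have h2 : y i x = true := hx
    rw [h1] at h2
    exact absurd h2 (by simp)
  · intro h i hi
    by_contra hcon
    refine h _ ⟨i, hi, rfl⟩ ?_
    show y i x = true
    simpa using hcon

theorem continuous_nu (n K : ℕ) {f : (ℕ → ℕ) → (ℕ → Bool)} (hf : Continuous f) :
    Continuous fun p : (ℕ → Bool) × (ℕ → ℕ → ℕ) => nu n K fun i => f (p.2 i) := by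
  unfold nu
  refine Continuous.div_const (continuous_finsetSum _ fun x _ => continuous_finsetProd _
    fun i _ => ?_) _
  have h : Continuous fun b : Bool => if b = false then (1 : ℝ) else 0 :=
    continuous_of_discreteTopology
  exact h.comp ((continuous_apply x).comp (hf.comp ((continuous_apply i).comp continuous_snd)))

theorem analytic_S {f : (ℕ → ℕ) → (ℕ → Bool)} (hf : Continuous f)
    (hr : Set.range f = {x : ℕ → Bool | {n | x n = true} ∈ 𝒜}) (ε : ℝ) :
    AnalyticSet {x : ℕ → Bool | ∃ T : Finset (Set ℕ), (T : Set (Set ℕ)) ⊆ 𝒜 ∧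
      ∃ N, ∀ n ≥ N, x n = true → mu n (⋃₀ (T : Set (Set ℕ)))ᶜ ≤ ε} := by
  classical
  have heq : {x : ℕ → Bool | ∃ T : Finset (Set ℕ), (T : Set (Set ℕ)) ⊆ 𝒜 ∧
      ∃ N, ∀ n ≥ N, x n = true → mu n (⋃₀ (T : Set (Set ℕ)))ᶜ ≤ ε} =
      ⋃ N : ℕ, ⋃ K : ℕ, Prod.fst '' {p : (ℕ → Bool) × (ℕ → ℕ → ℕ) | ∀ n, N ≤ n →
        p.1 n = true → nu n K (fun i => f (p.2 i)) ≤ ε} := by
    ext x
    simp only [Set.mem_iUnion, Set.mem_image, Prod.exists, exists_and_right, exists_eq_right]
    constructor
    · rintro ⟨T, hT, N, hN⟩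
      have hg : ∀ A : Set ℕ, ∃ g : ℕ → ℕ, A ∈ 𝒜 → f g = chi A := by
        intro A
        by_cases hA : A ∈ 𝒜
        · have : chi A ∈ Set.range f := by
            rw [hr]
            show {n | chi A n = true} ∈ 𝒜
            have : {n | chi A n = true} = A := by ext n; simp [chi]
            rwa [this]
          obtain ⟨g, hg⟩ := this
          exact ⟨g, fun _ => hg⟩
        · exact ⟨0, fun h => absurd h hA⟩
      choose g hg using hg
      refine ⟨N, T.toList.length, fun i => g (T.toList.getD i ∅), fun n hn hxn => ?_⟩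
      rw [nu_eq]
      have hfam : fam T.toList.length (fun i => f (g (T.toList.getD i ∅))) = T := by
        have h1 : ∀ i < T.toList.length,
            {m | f (g (T.toList.getD i ∅)) m = true} = T.toList.getD i ∅ := by
          intro i hi
          have h2 : T.toList.getD i ∅ ∈ T := by
            rw [List.getD_eq_getElem _ _ hi]
            exact Finset.mem_toList.1 (List.getElem_mem hi)
          rw [hg _ (hT h2)]
          ext m; simp [chi]
        ext A
        simp only [fam, Finset.mem_image, Finset.mem_range]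
        constructor
        · rintro ⟨i, hi, rfl⟩
          rw [h1 i hi, List.getD_eq_getElem _ _ hi]
          exact Finset.mem_toList.1 (List.getElem_mem hi)
        · intro hA
          obtain ⟨i, hi, rfl⟩ := List.getElem_of_mem (Finset.mem_toList.2 hA)
          exact ⟨i, hi, by rw [h1 i hi, List.getD_eq_getElem _ _ hi]⟩
      rw [hfam]
      exact hN n hn hxn
    · rintro ⟨N, K, g, hg⟩
      refine ⟨fam K fun i => f (g i), ?_, N, fun n hn hxn => ?_⟩
      · intro A hA
        obtain ⟨i, _, rfl⟩ := Finset.mem_image.1 (Finset.mem_coe.1 hA)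
        have : f (g i) ∈ Set.range f := ⟨_, rfl⟩
        rw [hr] at this
        exact this
      · rw [← nu_eq]
        exact hg n hn hxn
  rw [heq]
  refine AnalyticSet.iUnion fun N => AnalyticSet.iUnion fun K => ?_
  have : PolishSpace ((ℕ → Bool) × (ℕ → ℕ → ℕ)) := ⟨⟩
  refine AnalyticSet.image_of_continuous (IsClosed.analyticSet ?_) continuous_fst
  have : {p : (ℕ → Bool) × (ℕ → ℕ → ℕ) | ∀ n, N ≤ n →
        p.1 n = true → nu n K (fun i => f (p.2 i)) ≤ ε} =
      ⋂ n : ℕ, ⋂ _ : N ≤ n, ({p : (ℕ → Bool) × (ℕ → ℕ → ℕ) | p.1 n = false} ∪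
        {p | nu n K (fun i => f (p.2 i)) ≤ ε}) := by
    ext p
    simp only [Set.mem_iInter, Set.mem_union]
    constructor
    · intro h n hn
      by_cases h1 : p.1 n = true
      · exact Or.inr (h n hn h1)
      · exact Or.inl (by simpa using h1)
    · intro h n hn h1
      rcases h n hn with h2 | h2
      · have h3 : p.1 n = false := h2
        rw [h1] at h3
        exact absurd h3 (by simp)
      · exact h2
  rw [this]
  refine isClosed_iInter fun n => isClosed_iInter fun _ => IsClosed.union ?_ ?_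
  · have h9 : Continuous fun p : (ℕ → Bool) × (ℕ → ℕ → ℕ) => p.1 n :=
      (continuous_apply n).comp continuous_fst
    exact (isClosed_discrete ({false} : Set Bool)).preimage h9
  · exact isClosed_le (continuous_nu n K hf) continuous_const

/-- Analytic maximal almost disjoint families modulo the density zero ideal are countable. -/
theorem main (hA : AnalyticSet {x : ℕ → Bool | {n | x n = true} ∈ 𝒜})
    (hpos : ∀ A ∈ 𝒜, ¬ Z0 A) (had : ∀ A ∈ 𝒜, ∀ B ∈ 𝒜, A ≠ B → Z0 (A ∩ B))
    (hmax : ∀ X, ¬ Z0 X → ∃ A ∈ 𝒜, ¬ Z0 (X ∩ A)) : 𝒜.Countable := by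
  classical
  by_contra hc
  obtain ⟨r, hr, hrH⟩ := exists_r had hpos hc
  rw [AnalyticSet] at hA
  rcases hA with h0 | ⟨f, hf, hfr⟩
  · refine hc ?_
    have : 𝒜 = ∅ := by
      by_contra hne
      obtain ⟨A, hA⟩ := Set.nonempty_iff_ne_empty.2 hne
      have : chi A ∈ {x : ℕ → Bool | {n | x n = true} ∈ 𝒜} := by
        show {n | chi A n = true} ∈ 𝒜
        have : {n | chi A n = true} = A := by ext n; simp [chi]
        rwa [this]
      rw [h0] at this
      exact this
    rw [this]; exact Set.countable_empty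
  · obtain ⟨D, hD, T, hT, N, hN⟩ := (happy_HH hmax had r).analytic
      (analytic_S hf hfr (r / 2)) (by
        intro D hD
        obtain ⟨T, E, hT, hE, hEi, hTE⟩ := exhaust hmax Set.univ
          ((happy_HH hmax had r).inf D hD) (δ := r / 2) (by positivity)
        refine ⟨E, hE, hEi, T, hT, 0, fun n _ hn => ?_⟩
        have h1 : n ∈ E := by simpa [chi] using hn
        have := hTE n h1
        rwa [← Set.compl_eq_univ_sdiff] at this) ⟨_, hrH⟩
    obtain ⟨n, ⟨hnD, hn⟩, hnN⟩ := (hD T hT (r / 2) (by positivity)).exists_gt N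
    have := hN n hnN.le (by simpa [chi] using hnD)
    linarith

end Pool.Agent.V11244.ZM
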